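import Mathlib
import Pool.Graph.R_seed8.Results.MP_79deac_al.CountablyManyTopologies

/-!
# MP_79deac_al: groups of prime exponent, and sharpness

Abelian groups of prime exponent whose cardinality is an uncountable strong limit cardinal of
countable cofinality: countably many Hausdorff group topologies are never jointly independent (they
have a common countably infinite closed discrete set), all the Hausdorff group topologies together
are, and there is one in which all closed discrete sets are countable.
-/

set_option autoImplicit false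

namespace Pool.Agent.Results.MP_79deac_al.PrimeExponentSharp

open Cardinal Set Topology
open Pool.Agent.Results.MP_79deac_al.CountablyManyTopologies

universe u

/-- The topologies of the family `T` are jointly independent: a set is open in all of them exactly
when it is empty or has finite complement. -/
def JointlyIndependentSet {G : Type u} (T : Set (TopologicalSpace G)) : Prop :=
  ∀ s : Set G, (∀ t ∈ T, IsOpen[t] s) ↔ (s = ∅ ∨ sᶜ.Finite)

theorem zcofinite_of_small (G : Type u) [AddCommGroup G]
    (h : ∀ (n : ℤ) (g : G), {x : G | n • x = g} = Set.univ ∨ {x : G | n • x = g}.Finite) :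
    ZCofinite G := by
  have hopen : ∀ s : Set G, IsOpen[zariski G] s → (s = ∅ ∨ sᶜ.Finite) := by
    intro s hs
    induction hs with
    | basic s hs =>
      obtain ⟨n, g, rfl⟩ := hs
      rw [compl_compl]
      rcases h n g with h | h
      · left; rw [h, compl_univ]
      · right; exact h
    | univ => right; simp
    | inter s t _ _ hs ht =>
      rcases hs with hs | hs
      · left; simp [hs]
      · rcases ht with ht | ht
        · left; simp [ht]
        · right
          rw [Set.compl_inter]
          exact hs.union ht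
    | sUnion S _ ih =>
      by_cases h : ∀ s ∈ S, s = ∅
      · left
        exact Set.sUnion_eq_empty.2 h
      · right
        push Not at h
        obtain ⟨s, hs, hne⟩ := h
        have := (ih s hs).resolve_left (by
          intro e
          rw [e] at hne
          exact Set.not_nonempty_empty hne)
        exact this.subset (Set.compl_subset_compl.2 (Set.subset_sUnion_of_mem hs))
  intro s
  constructor
  · intro hs
    have h1 : IsOpen[zariski G] sᶜ := (@isOpen_compl_iff G s (zariski G)).2 hs
    rcases hopen _ h1 with h | h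
    · left; exact Set.compl_empty_iff.1 h
    · right; rwa [compl_compl] at h
  · rintro (rfl | hs)
    · exact @isClosed_univ G (zariski G)
    · have h1 : ∀ g : G, IsClosed[zariski G] {g} := by
        intro g
        rw [← @isOpen_compl_iff G {g} (zariski G)]
        apply TopologicalSpace.isOpen_generateFrom_of_mem
        refine ⟨1, g, ?_⟩
        congr 1
        ext x
        simp
      have h2 : s = ⋃ g ∈ s, {g} := by simp
      rw [h2]
      exact @Set.Finite.isClosed_biUnion G G (zariski G) s _ hs (fun g _ => h1 g)

theorem zcofinite_of_exponent {p : ℕ} (hp : p.Prime) (G : Type u) [AddCommGroup G]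
    (hG : ∀ x : G, p • x = 0) : ZCofinite G := by
  refine zcofinite_of_small G fun n g => ?_
  have hG' : ∀ x : G, (p : ℤ) • x = 0 := fun x => by rw [natCast_zsmul]; exact hG x
  by_cases hn : (p : ℤ) ∣ n
  · obtain ⟨k, rfl⟩ := hn
    by_cases hg : g = 0
    · left
      ext x
      simp only [mem_ofPred_eq, mem_univ, iff_true]
      rw [mul_comm, mul_smul, hG', smul_zero, hg]
    · right
      convert Set.finite_empty
      ext x
      simp only [mem_ofPred_eq, mem_empty_iff_false, iff_false]
      rw [mul_comm, mul_smul, hG', smul_zero]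
      exact fun h => hg h.symm
  · right
    have hco : IsCoprime n (p : ℤ) :=
      ((Int.prime_iff_natAbs_prime.2 (by simpa using hp)).coprime_iff_not_dvd.2 hn).symm
    obtain ⟨a, b, hab⟩ := hco
    refine (Set.finite_singleton (a • g)).subset ?_
    intro x hx
    have hx' : n • x = g := hx
    rw [mem_singleton_iff, ← hx', ← mul_smul]
    have h1 : x = (a * n + b * p) • x := by rw [hab, one_smul]
    conv_lhs => rw [h1, add_smul, mul_smul b, hG', smul_zero, add_zero]

section Basis

variable {p : ℕ} [Fact p.Prime] {V : Type u} [AddCommGroup V] [Module (ZMod p) V] {ι : Type u}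

/-- The coordinates with respect to a basis. -/
noncomputable def coord (b : Module.Basis ι (ZMod p) V) : V →+ (ι → ZMod p) :=
  Finsupp.coeFnAddHom.comp b.repr.toLinearMap.toAddMonoidHom

theorem coord_injective (b : Module.Basis ι (ZMod p) V) : Function.Injective (coord b) :=
  DFunLike.coe_injective.comp b.repr.injective

/-- The topology of pointwise convergence of the coordinates. -/
@[reducible] noncomputable def basisTop (b : Module.Basis ι (ZMod p) V) : TopologicalSpace V :=
  TopologicalSpace.induced (coord b) inferInstance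

theorem basisTop_hausdorff (b : Module.Basis ι (ZMod p) V) : HausdorffGroupTop (basisTop b) := by
  refine ⟨topologicalAddGroup_induced (coord b), ?_⟩
  let _ := basisTop b
  exact T2Space.of_injective_continuous (coord_injective b) continuous_induced_dom

/-- `0` is in the closure of every infinite set of basis vectors. -/
theorem zero_mem_closure (b : Module.Basis ι (ZMod p) V) {J : Set ι} (hJ : J.Infinite) :
    (0 : V) ∈ @closure V (basisTop b) (b '' J) := by
  rw [closure_induced, mem_closure_iff_nhds]
  intro U hU
  rw [map_zero, nhds_pi, Filter.mem_pi] at hU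
  obtain ⟨I, hI, t, ht, hU⟩ := hU
  obtain ⟨j, hj, hjI⟩ := (hJ.sdiff hI).nonempty
  refine ⟨coord b (b j), hU ?_, _, ⟨j, hj, rfl⟩, rfl⟩
  intro i hi
  have h0 : coord b (b j) i = 0 := by
    show b.repr (b j) i = 0
    rw [b.repr_self, Finsupp.single_eq_of_ne]
    rintro rfl
    exact hjI hi
  rw [h0]
  exact mem_of_mem_nhds (ht i)

/-- Every infinite subset of a vector space over `𝔽_p` which does not contain `0` fails to be closed
in the topology of some basis. -/
theorem exists_basis {A : Set V} (hA : A.Infinite) :
    ∃ (J : Set V) (b : Module.Basis J (ZMod p) V) (B : Set J), B.Infinite ∧ b '' B ⊆ A := by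
  obtain ⟨B, hBA, hspan, hlin⟩ := exists_linearIndependent (ZMod p) A
  have hB : B.Infinite := by
    intro hfin
    apply hA
    have h1 : (↑(Submodule.span (ZMod p) B) : Set V).Finite := by
      have h2 : Module.Finite (ZMod p) (Submodule.span (ZMod p) B) :=
        Module.Finite.span_of_finite _ hfin
      have h3 : Finite (Submodule.span (ZMod p) B) := Module.finite_of_finite (ZMod p)
      exact Set.toFinite _
    rw [hspan] at h1
    exact h1.subset Submodule.subset_span
  have hlin : LinearIndepOn (ZMod p) id B := hlin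
  have hsub : B ⊆ hlin.extend (subset_univ _) := Module.Basis.subset_extend hlin
  refine ⟨hlin.extend (subset_univ B), Module.Basis.extend hlin, Subtype.val ⁻¹' B, ?_, ?_⟩
  · refine hB.preimage ?_
    rw [Subtype.range_coe]
    exact hsub
  · rintro _ ⟨j, hj, rfl⟩
    rw [Module.Basis.extend_apply_self]
    exact hBA hj

end Basis

/-- In a group of prime exponent all Hausdorff group topologies together are independent. -/
theorem all_independent {p : ℕ} (hp : p.Prime) (G : Type u) [AddCommGroup G]
    (hG : ∀ x : G, p • x = 0) :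
    JointlyIndependentSet {t : TopologicalSpace G | HausdorffGroupTop t} := by
  intro s
  constructor
  · intro h
    by_contra hcon
    push Not at hcon
    obtain ⟨hne, hinf⟩ := hcon
    obtain ⟨g, hg⟩ := hne
    have : Fact p.Prime := ⟨hp⟩
    let _ : Module (ZMod p) G := AddCommGroup.zmodModule hG
    have hAinf : ((fun a => a - g) '' sᶜ).Infinite :=
      Set.Infinite.image (fun a _ b _ h => sub_left_injective h) hinf
    obtain ⟨J, b, B, hB, hBA⟩ := exists_basis (p := p) hAinf
    have h0 := zero_mem_closure b hB
    have ho : IsOpen[basisTop b] s := h _ (basisTop_hausdorff b)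
    have key : ∀ t : TopologicalSpace G, HausdorffGroupTop t → IsOpen[t] s → ∀ C : Set G,
        (0 : G) ∈ @closure G t C → ∃ v ∈ C, v + g ∈ s := by
      intro t ht ho C hC
      have := ht.1
      have hc : Continuous (fun v : G => v + g) := continuous_add_const g
      have hopen : IsOpen ((fun v : G => v + g) ⁻¹' s) := ho.preimage hc
      rw [mem_closure_iff] at hC
      obtain ⟨v, hv1, hv2⟩ := hC _ hopen (by simpa using hg)
      exact ⟨v, hv2, hv1⟩
    obtain ⟨v, hv1, hv2⟩ := key _ (basisTop_hausdorff b) ho _ h0
    obtain ⟨a, ha, rfl⟩ := hBA hv1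
    apply ha
    simpa using hv2
  · rintro (rfl | hs) t ht
    · exact @isOpen_empty G t
    · let _ := t
      have := ht.2
      have h := hs.isClosed.isOpen_compl
      rwa [compl_compl] at h

/-- In a `σ`-compact Hausdorff space every set all of whose subsets are closed is countable. -/
theorem countable_of_sigmaCompact {X : Type u} [TopologicalSpace X] {K : ℕ → Set X}
    (hK : ∀ n, IsCompact (K n)) (hU : ∀ x, ∃ n, x ∈ K n) {D : Set X}
    (hD : ∀ E ⊆ D, IsClosed E) : D.Countable := by
  have h1 : D = ⋃ n, D ∩ K n := by
    ext x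
    simp only [mem_iUnion, mem_inter_iff]
    exact ⟨fun h => (hU x).imp fun n hn => ⟨h, hn⟩, fun ⟨n, h⟩ => h.1⟩
  rw [h1]
  refine Set.countable_iUnion fun n => Set.Finite.countable ?_
  have hc : IsCompact (D ∩ K n) := (hK n).inter_left (hD D subset_rfl)
  have hcs : CompactSpace (D ∩ K n : Set X) := isCompact_iff_compactSpace.1 hc
  have hdt : DiscreteTopology (D ∩ K n : Set X) := by
    rw [discreteTopology_iff_forall_isClosed]
    intro s
    have h2 : IsClosed (Subtype.val '' s) := hD _ (by
      rintro _ ⟨x, _, rfl⟩
      exact x.2.1)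
    have h3 : s = Subtype.val ⁻¹' (Subtype.val '' s) :=
      (preimage_image_eq s Subtype.val_injective).symm
    rw [h3]
    exact h2.preimage continuous_subtype_val
  exact Set.finite_coe_iff.1 (finite_of_compact_of_discrete)

section Sigma

variable {p : ℕ} [Fact p.Prime] {I : Type u}

/-- The functions `I → 𝔽_p` with support in some `J n`. -/
def HH (p : ℕ) [Fact p.Prime] {I : Type u} (J : ℕ → Set I) (hJ : Monotone J) :
    Submodule (ZMod p) (I → ZMod p) where
  carrier := {x | ∃ n, ∀ i, i ∉ J n → x i = 0}
  zero_mem' := ⟨0, fun _ _ => rfl⟩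
  add_mem' := by
    rintro x y ⟨n, hn⟩ ⟨m, hm⟩
    refine ⟨max n m, fun i hi => ?_⟩
    rw [Pi.add_apply, hn i (fun h => hi (hJ (le_max_left n m) h)),
      hm i (fun h => hi (hJ (le_max_right n m) h)), add_zero]
  smul_mem' := by
    rintro c x ⟨n, hn⟩
    refine ⟨n, fun i hi => ?_⟩
    rw [Pi.smul_apply, hn i hi, smul_zero]

variable {J : ℕ → Set I} {hJ : Monotone J}

theorem compact_part (n : ℕ) : IsCompact {x : HH p J hJ | ∀ i, i ∉ J n → (x : I → ZMod p) i = 0} := by
  rw [Topology.IsEmbedding.subtypeVal.isCompact_iff]
  have h1 : Subtype.val '' {x : HH p J hJ | ∀ i, i ∉ J n → (x : I → ZMod p) i = 0} =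
      {x : I → ZMod p | ∀ i, i ∉ J n → x i = 0} := by
    ext x
    constructor
    · rintro ⟨y, hy, rfl⟩
      exact hy
    · intro hx
      exact ⟨⟨x, n, hx⟩, hx, rfl⟩
  rw [h1]
  refine IsClosed.isCompact ?_
  have h2 : {x : I → ZMod p | ∀ i, i ∉ J n → x i = 0} =
      ⋂ i, ⋂ (_ : i ∉ J n), {x : I → ZMod p | x i = 0} := by
    ext x
    simp
  rw [h2]
  exact isClosed_iInter fun i => isClosed_iInter fun _ =>
    isClosed_eq (continuous_apply i) continuous_const

theorem card_part (n : ℕ) :
    #{x : HH p J hJ | ∀ i, i ∉ J n → (x : I → ZMod p) i = 0} ≤ ℵ₀ ^ #(J n) := by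
  have hinj : Function.Injective (fun (x : {x : HH p J hJ | ∀ i, i ∉ J n →
      (x : I → ZMod p) i = 0}) (i : J n) => (x.1 : I → ZMod p) i) := by
    intro x y hxy
    apply Subtype.ext
    apply Subtype.ext
    funext i
    by_cases hi : i ∈ J n
    · exact congrFun hxy ⟨i, hi⟩
    · exact (x.2 i hi).trans (y.2 i hi).symm
  refine (mk_le_of_injective hinj).trans ?_
  rw [mk_arrow, Cardinal.lift_uzero]
  refine Cardinal.power_le_power_right ?_
  rw [Cardinal.lift_le_aleph0]
  exact Cardinal.mk_le_aleph0

end Sigma

theorem rank_eq_mk (p : ℕ) [Fact p.Prime] (V : Type u) [AddCommGroup V] [Module (ZMod p) V]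
    [Infinite V] : Module.rank (ZMod p) V = #V := by
  let b := Module.Free.chooseBasis (ZMod p) V
  rw [← b.mk_eq_rank'']
  have hinf : Infinite (Module.Free.ChooseBasisIndex (ZMod p) V) := by
    by_contra h
    rw [not_infinite_iff_finite] at h
    have h1 : Finite (Module.Free.ChooseBasisIndex (ZMod p) V →₀ ZMod p) :=
      Finite.of_injective _ DFunLike.coe_injective
    have h2 : Finite V := Finite.of_equiv _ b.repr.symm.toEquiv
    exact not_finite V
  have h1 : #V = #(Module.Free.ChooseBasisIndex (ZMod p) V →₀ ZMod p) :=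
    Cardinal.mk_congr b.repr.toEquiv
  rw [h1, mk_finsupp_lift_of_infinite, Cardinal.lift_uzero, max_eq_left]
  exact (Cardinal.lift_le_aleph0.2 Cardinal.mk_le_aleph0).trans (Cardinal.aleph0_le_mk _)

theorem equiv_of_card (p : ℕ) [Fact p.Prime] (V W : Type u) [AddCommGroup V] [Module (ZMod p) V]
    [AddCommGroup W] [Module (ZMod p) W] [Infinite V] [Infinite W] (h : #V = #W) :
    Nonempty (V ≃ₗ[ZMod p] W) := by
  have hr : Module.rank (ZMod p) V = Module.rank (ZMod p) W := by
    rw [rank_eq_mk p V, rank_eq_mk p W, h]
  exact nonempty_linearEquiv_of_rank_eq hr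

theorem exists_sigmaCompact_aux (p : ℕ) [Fact p.Prime] (G : Type u) [AddCommGroup G]
    [Module (ZMod p) G] (hsp : Special G) :
    ∃ t : TopologicalSpace G, HausdorffGroupTop t ∧
      ∀ D : Set G, (∀ E ⊆ D, IsClosed[t] E) → D.Countable := by
  classical
  obtain ⟨h0, hs, S, hS, hSc⟩ := hsp
  have hGinf : Infinite G := Cardinal.infinite_iff.2 h0.le
  let J : ℕ → Set G := fun n => {x | ∃ m ≤ n, x ∈ S m}
  have hJ : Monotone J := fun a b hab x ⟨m, hm, hx⟩ => ⟨m, hm.trans hab, hx⟩
  have hJc : ∀ n, #(J n) < #G := by
    intro n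
    induction n with
    | zero =>
      refine (Cardinal.mk_le_mk_of_subset (t := S 0) ?_).trans_lt (hSc 0)
      rintro x ⟨m, hm, hx⟩
      rwa [Nat.le_zero.1 hm] at hx
    | succ n ih =>
      refine (Cardinal.mk_le_mk_of_subset (t := J n ∪ S (n + 1)) ?_).trans_lt
        ((mk_union_le _ _).trans_lt (add_lt_of_lt h0.le ih (hSc (n + 1))))
      rintro x ⟨m, hm, hx⟩
      rcases Nat.lt_or_ge m (n + 1) with h | h
      · exact Or.inl ⟨m, by omega, hx⟩
      · have : m = n + 1 := by omega
        rw [this] at hx
        exact Or.inr hx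
  have hJU : ∀ x, ∃ n, x ∈ J n := by
    intro x
    have hx : x ∈ ⋃ n, S n := by rw [hS]; trivial
    obtain ⟨n, hn⟩ := mem_iUnion.1 hx
    exact ⟨n, n, le_rfl, hn⟩
  have hle : #G ≤ #(HH p J hJ) := by
    refine Cardinal.mk_le_of_injective (f := fun g => (⟨Pi.single g 1, ?_⟩ : HH p J hJ)) ?_
    · obtain ⟨n, hn⟩ := hJU g
      refine ⟨n, fun i hi => ?_⟩
      rw [Pi.single_apply, if_neg]
      rintro rfl
      exact hi hn
    · intro a b hab
      have h1 := congrFun (congrArg Subtype.val hab) a
      simp only [Pi.single_apply, if_true] at h1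
      by_contra hne
      rw [if_neg hne] at h1
      exact one_ne_zero h1
  have hge : #(HH p J hJ) ≤ #G := by
    have h1 : (Set.univ : Set (HH p J hJ)) = ⋃ n : ULift.{u} ℕ,
        {x : HH p J hJ | ∀ i, i ∉ J n.down → (x : G → ZMod p) i = 0} := by
      ext x
      simp only [mem_univ, mem_iUnion, true_iff]
      obtain ⟨n, hn⟩ := x.2
      exact ⟨⟨n⟩, hn⟩
    rw [← Cardinal.mk_univ, h1]
    refine (mk_iUnion_le _).trans ?_
    refine Cardinal.mul_le_of_le h0.le ?_ ?_
    · simp
    · refine ciSup_le' fun n => ?_
      refine (card_part n.down).trans ?_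
      have h2 : (ℵ₀ : Cardinal.{u}) ^ #(J n.down) ≤ 2 ^ (ℵ₀ * #(J n.down)) := by
        rw [Cardinal.power_mul]
        exact Cardinal.power_le_power_right (Cardinal.cantor _).le
      exact h2.trans (hs.isStrongPrelimit (mul_lt_of_lt h0.le h0 (hJc _))).le
  have hcard : #G = #(HH p J hJ) := le_antisymm hle hge
  have hHinf : Infinite (HH p J hJ) := Cardinal.infinite_iff.2 (hcard ▸ h0.le)
  obtain ⟨e⟩ := equiv_of_card p G (HH p J hJ) hcard
  refine ⟨TopologicalSpace.induced e inferInstance, ⟨?_, ?_⟩, ?_⟩
  · exact topologicalAddGroup_induced e.toLinearMap.toAddMonoidHom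
  · let _ : TopologicalSpace G := TopologicalSpace.induced e inferInstance
    exact T2Space.of_injective_continuous e.injective continuous_induced_dom
  · intro D hD
    refine Set.countable_of_injective_of_countable_image (f := e) e.injective.injOn ?_
    refine countable_of_sigmaCompact
      (K := fun n => {x : HH p J hJ | ∀ i, i ∉ J n → (x : G → ZMod p) i = 0})
      (fun n => compact_part n) (fun x => x.2) ?_
    intro E hE
    have h1 : e ⁻¹' E ⊆ D := by
      intro x hx
      obtain ⟨y, hy, hxy⟩ := hE hx
      rwa [← e.injective hxy]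
    obtain ⟨T, hT, hTE⟩ := isClosed_induced_iff.1 (hD _ h1)
    rwa [← e.surjective.preimage_injective hTE]

theorem exists_sigmaCompact {p : ℕ} (hp : p.Prime) (G : Type u) [AddCommGroup G]
    (hG : ∀ x : G, p • x = 0) (hsp : Special G) :
    ∃ t : TopologicalSpace G, HausdorffGroupTop t ∧
      ∀ D : Set G, (∀ E ⊆ D, IsClosed[t] E) → D.Countable := by
  have : Fact p.Prime := ⟨hp⟩
  let _ : Module (ZMod p) G := AddCommGroup.zmodModule hG
  exact exists_sigmaCompact_aux p G hsp

theorem special_congr {G : Type u} {G' : Type u} (h : #G = #G') (hG : Special G') : Special G := by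
  obtain ⟨h0, hs, S, hS, hSc⟩ := hG
  obtain ⟨e⟩ := Cardinal.eq.1 h
  refine ⟨h ▸ h0, h ▸ hs, fun n => e ⁻¹' S n, ?_, fun n => ?_⟩
  · rw [← preimage_iUnion, hS, preimage_univ]
  · rw [Cardinal.mk_preimage_equiv, h]
    exact hSc n

theorem exists_special_exponent {p : ℕ} (hp : p.Prime) (μ : Cardinal.{u}) :
    ∃ (G : Type u) (_ : AddCommGroup G), μ < #G ∧ (∀ x : G, p • x = 0) ∧ Special G := by
  have : Fact p.Prime := ⟨hp⟩
  obtain ⟨G₀, _, hμ, hsp, -⟩ := exists_special μ
  have hinf : Infinite G₀ := Cardinal.infinite_iff.2 hsp.1.le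
  have hc : #(G₀ →₀ ZMod p) = #G₀ := by
    rw [mk_finsupp_lift_of_infinite, Cardinal.lift_uzero, max_eq_left]
    exact (Cardinal.lift_le_aleph0.2 Cardinal.mk_le_aleph0).trans (Cardinal.aleph0_le_mk _)
  refine ⟨G₀ →₀ ZMod p, inferInstance, hc ▸ hμ, fun x => ?_, special_congr hc hsp⟩
  ext i
  simp

/-- `Special G`: the cardinality of `G` is an uncountable strong limit cardinal of countable
cofinality.

(A) On an abelian group `G` with `Special G` no countably many Hausdorff group topologies are
jointly independent; they have a common countably infinite set all of whose subsets are closed in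
all of them.

Let `p` be a prime number and `G` an abelian group with `p G = 0`.

(B) `G` is `Z`-cofinite, and all Hausdorff group topologies of `G` together are jointly
independent: in (A) `countably many` cannot be replaced by `arbitrarily many`.

(C) If moreover `Special G`, then there is one Hausdorff group topology of `G` in which every set
all of whose subsets are closed is countable: in (A) `countably infinite` is optimal.

(D) There are arbitrarily large groups as in (C). They answer Q1 negatively. -/
theorem result :
    (∀ (G : Type u) [AddCommGroup G], Special G → ∀ t : ℕ → TopologicalSpace G,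
      (∀ i, HausdorffGroupTop (t i)) → ¬ JointlyIndependent t ∧
        ∃ D : Set G, D.Infinite ∧ D.Countable ∧ ∀ E ⊆ D, ∀ i, IsClosed[t i] E) ∧
    ∀ p : ℕ, p.Prime →
      (∀ (G : Type u) [AddCommGroup G], (∀ x : G, p • x = 0) →
        ZCofinite G ∧ JointlyIndependentSet {t : TopologicalSpace G | HausdorffGroupTop t} ∧
        (Special G → ∃ t : TopologicalSpace G, HausdorffGroupTop t ∧
          ∀ D : Set G, (∀ E ⊆ D, IsClosed[t] E) → D.Countable)) ∧
      ∀ μ : Cardinal.{u}, ∃ (G : Type u) (_ : AddCommGroup G),
        μ < #G ∧ (∀ x : G, p • x = 0) ∧ Special G :=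
  ⟨fun G _ hsp t ht => ⟨not_independent G hsp t ht, general G hsp t ht⟩,
    fun p hp => ⟨fun G _ hG => ⟨zcofinite_of_exponent hp G hG, all_independent hp G hG,
      exists_sigmaCompact hp G hG⟩, exists_special_exponent hp⟩⟩

end Pool.Agent.Results.MP_79deac_al.PrimeExponentSharp
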